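import Mathlib

/-!
# The Shearer region is invariant under adaptive lotteries (helper45)

`q N S p` is the independence polynomial of the graph with closed neighbourhoods `N`
(signs alternating), `R N S p` is Shearer's region.  Main theorem `exists_outcome_R`:
if `p` is in the region and `P` is a random vector with means at most `p` such that `P z` is
independent of all functions of the coordinates outside the closed neighbourhood of `z`, then
some outcome of positive weight is again in the region, and `q` does not decrease there.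
-/

set_option autoImplicit false
set_option linter.unusedSectionVars false

open Finset

namespace H45.Shearer

variable {Z : Type*} [DecidableEq Z]

/-- `I` is independent for the adjacency relation `adj`. -/
def Ind (adj : Z → Z → Prop) (I : Finset Z) : Prop :=
  ∀ y ∈ I, ∀ z ∈ I, y ≠ z → ¬ adj y z

open Classical in
/-- The alternating independence polynomial. -/
noncomputable def q (adj : Z → Z → Prop) (S : Finset Z) (p : Z → ℝ) : ℝ :=
  ∑ I ∈ S.powerset.filter (Ind adj), ∏ z ∈ I, (-(p z))

open Classical in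
/-- `S` without the closed neighbourhood of `z`. -/
noncomputable def rem (adj : Z → Z → Prop) (S : Finset Z) (z : Z) : Finset Z :=
  S.filter (fun y => y ≠ z ∧ ¬ adj z y)

lemma mem_rem {adj : Z → Z → Prop} {S : Finset Z} {z y : Z} :
    y ∈ rem adj S z ↔ y ∈ S ∧ y ≠ z ∧ ¬ adj z y := by
  classical
  simp [rem]

lemma q_empty (adj : Z → Z → Prop) (p : Z → ℝ) : q adj ∅ p = 1 := by
  classical
  unfold q
  rw [Finset.powerset_empty]
  have : ({∅} : Finset (Finset Z)).filter (Ind adj) = {∅} := by
    apply Finset.filter_true_of_mem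
    intro I hI
    rw [Finset.mem_singleton] at hI
    subst hI
    intro y hy
    exact absurd hy (Finset.notMem_empty y)
  rw [this]
  simp

lemma q_rec {adj : Z → Z → Prop} (hsym : ∀ y z, adj y z → adj z y) {S : Finset Z} {z : Z}
    (hz : z ∈ S) (p : Z → ℝ) :
    q adj S p = q adj (S.erase z) p - p z * q adj (rem adj S z) p := by
  classical
  unfold q
  have hsplit : S.powerset.filter (Ind adj) =
      ((S.erase z).powerset.filter (Ind adj)) ∪
        (((rem adj S z).powerset.filter (Ind adj)).image (fun J => insert z J)) := by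
    ext I
    simp only [Finset.mem_filter, Finset.mem_powerset, Finset.mem_union, Finset.mem_image]
    constructor
    · rintro ⟨hIS, hI⟩
      by_cases hzI : z ∈ I
      · right
        refine ⟨I.erase z, ⟨?_, ?_⟩, Finset.insert_erase hzI⟩
        · intro y hy
          rw [Finset.mem_erase] at hy
          rw [mem_rem]
          refine ⟨hIS hy.2, hy.1, ?_⟩
          exact hI z hzI y hy.2 (fun h => hy.1 h.symm)
        · intro y hy w hw hyw
          exact hI y (Finset.mem_of_mem_erase hy) w (Finset.mem_of_mem_erase hw) hyw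
      · left
        refine ⟨?_, hI⟩
        intro y hy
        rw [Finset.mem_erase]
        refine ⟨?_, hIS hy⟩
        rintro rfl
        exact hzI hy
    · rintro (⟨hIS, hI⟩ | ⟨J, ⟨hJS, hJ⟩, rfl⟩)
      · exact ⟨hIS.trans (Finset.erase_subset _ _), hI⟩
      · refine ⟨?_, ?_⟩
        · intro y hy
          rw [Finset.mem_insert] at hy
          rcases hy with rfl | hy
          · exact hz
          · exact (mem_rem.1 (hJS hy)).1
        · intro y hy w hw hyw
          rw [Finset.mem_insert] at hy hw
          rcases hy with rfl | hy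
          · rcases hw with rfl | hw
            · exact absurd rfl hyw
            · exact (mem_rem.1 (hJS hw)).2.2
          · rcases hw with rfl | hw
            · intro h
              exact (mem_rem.1 (hJS hy)).2.2 (hsym _ _ h)
            · exact hJ y hy w hw hyw
  have hzJ : ∀ J ∈ (rem adj S z).powerset.filter (Ind adj), z ∉ J := by
    intro J hJ hzJ
    rw [Finset.mem_filter, Finset.mem_powerset] at hJ
    exact (mem_rem.1 (hJ.1 hzJ)).2.1 rfl
  rw [hsplit, Finset.sum_union]
  · rw [Finset.sum_image]
    · have : ∑ J ∈ (rem adj S z).powerset.filter (Ind adj), ∏ w ∈ insert z J, (-(p w)) =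
          - (p z * ∑ J ∈ (rem adj S z).powerset.filter (Ind adj), ∏ w ∈ J, (-(p w))) := by
        rw [Finset.mul_sum, ← Finset.sum_neg_distrib]
        apply Finset.sum_congr rfl
        intro J hJ
        rw [Finset.prod_insert (hzJ J hJ)]
        ring
      rw [this]
      ring
    · intro J hJ J' hJ' h
      have h1 := hzJ J hJ
      have h2 := hzJ J' hJ'
      have := congrArg (fun I : Finset Z => I.erase z) h
      simpa [Finset.erase_insert h1, Finset.erase_insert h2] using this
  · rw [Finset.disjoint_left]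
    intro I hI hI'
    rw [Finset.mem_filter, Finset.mem_powerset] at hI
    rw [Finset.mem_image] at hI'
    obtain ⟨J, _, rfl⟩ := hI'
    have := hI.1 (Finset.mem_insert_self z J)
    exact (Finset.mem_erase.1 this).1 rfl

/-- `q` depends only on the coordinates in `S`. -/
lemma q_congr {adj : Z → Z → Prop} {S : Finset Z} {p p' : Z → ℝ}
    (h : ∀ z ∈ S, p z = p' z) : q adj S p = q adj S p' := by
  classical
  unfold q
  apply Finset.sum_congr rfl
  intro I hI
  rw [Finset.mem_filter, Finset.mem_powerset] at hI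
  apply Finset.prod_congr rfl
  intro z hz
  rw [h z (hI.1 hz)]

/-- Shearer's region. -/
def R (adj : Z → Z → Prop) (S : Finset Z) (p : Z → ℝ) : Prop :=
  ∀ T ⊆ S, 0 < q adj T p

lemma R.mono {adj : Z → Z → Prop} {S T : Finset Z} {p : Z → ℝ} (h : R adj S p) (hT : T ⊆ S) :
    R adj T p := fun U hU => h U (hU.trans hT)

lemma R_congr {adj : Z → Z → Prop} {S : Finset Z} {p p' : Z → ℝ}
    (h : ∀ z ∈ S, p z = p' z) : R adj S p ↔ R adj S p' := by
  constructor
  · intro hR T hT
    rw [← q_congr (fun z hz => h z (hT hz))]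
    exact hR T hT
  · intro hR T hT
    rw [q_congr (fun z hz => h z (hT hz))]
    exact hR T hT

lemma R_empty (adj : Z → Z → Prop) (p : Z → ℝ) : R adj ∅ p := by
  intro T hT
  rw [Finset.subset_empty] at hT
  subst hT
  rw [q_empty]
  norm_num

lemma rem_subset_erase {adj : Z → Z → Prop} {S : Finset Z} {z : Z} :
    rem adj S z ⊆ S.erase z := by
  intro y hy
  rw [mem_rem] at hy
  exact Finset.mem_erase.2 ⟨hy.2.1, hy.1⟩

/-- `q` is decreasing on the region. -/
lemma q_le_erase {adj : Z → Z → Prop} (hsym : ∀ y z, adj y z → adj z y) {S : Finset Z} {z : Z}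
    (hz : z ∈ S) {p : Z → ℝ} (hp : 0 ≤ p z) (hR : R adj (S.erase z) p) :
    q adj S p ≤ q adj (S.erase z) p := by
  rw [q_rec hsym hz p]
  have := hR (rem adj S z) rem_subset_erase
  nlinarith [mul_nonneg hp this.le]

/-- One step of the ratio inequality, from log-submodularity one level below. -/
lemma step_of_LS {adj : Z → Z → Prop} (hsym : ∀ y z, adj y z → adj z y) {S T : Finset Z}
    {z : Z} {p : Z → ℝ} (hp : 0 ≤ p z) (hTS : T ⊆ S) (hzT : z ∈ T)
    (hLS : q adj (S.erase z) p * q adj (T.erase z ∩ rem adj S z) p ≤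
      q adj (T.erase z) p * q adj (rem adj S z) p) :
    q adj S p * q adj (T.erase z) p ≤ q adj T p * q adj (S.erase z) p := by
  have hinter : T.erase z ∩ rem adj S z = rem adj T z := by
    ext y
    rw [Finset.mem_inter, Finset.mem_erase, mem_rem, mem_rem]
    constructor
    · rintro ⟨⟨h1, h2⟩, h3, h4, h5⟩
      exact ⟨h2, h1, h5⟩
    · rintro ⟨h1, h2, h3⟩
      exact ⟨⟨h2, h1⟩, hTS h1, h2, h3⟩
  rw [hinter] at hLS
  rw [q_rec hsym (hTS hzT) p, q_rec hsym hzT p]
  nlinarith [mul_le_mul_of_nonneg_left hLS hp]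

/-- Log-submodularity of `q` on the region. -/
lemma LS {adj : Z → Z → Prop} (hsym : ∀ y z, adj y z → adj z y) (p : Z → ℝ) :
    ∀ (n : ℕ) (S : Finset Z), S.card ≤ n → (∀ z ∈ S, 0 ≤ p z) → R adj S p →
      ∀ T ⊆ S, ∀ U ⊆ S, q adj S p * q adj (T ∩ U) p ≤ q adj T p * q adj U p := by
  intro n
  induction n with
  | zero =>
    intro S hS hp hR T hT U hU
    have hS0 : S = ∅ := Finset.card_eq_zero.1 (Nat.le_zero.1 hS)
    subst hS0
    rw [Finset.subset_empty] at hT hU
    subst hT
    subst hU
    simp [q_empty]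
  | succ n ih =>
    intro S hS hp hR T hT U hU
    by_cases hSU : S ⊆ U
    · have : U = S := Finset.Subset.antisymm hU hSU
      subst this
      rw [Finset.inter_eq_left.2 hT, mul_comm]
    · obtain ⟨z, hzS, hzU⟩ := Finset.not_subset.1 hSU
      have hcard : (S.erase z).card ≤ n := by
        rw [Finset.card_erase_of_mem hzS]
        omega
      have hp' : ∀ y ∈ S.erase z, 0 ≤ p y := fun y hy => hp y (Finset.mem_of_mem_erase hy)
      have hR' : R adj (S.erase z) p := hR.mono (Finset.erase_subset _ _)
      have hU' : U ⊆ S.erase z := by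
        intro y hy
        rw [Finset.mem_erase]
        refine ⟨?_, hU hy⟩
        rintro rfl
        exact hzU hy
      by_cases hzT : z ∈ T
      · have hT' : T.erase z ⊆ S.erase z := Finset.erase_subset_erase z hT
        have h1 := step_of_LS hsym (hp z hzS) hT hzT
          (ih (S.erase z) hcard hp' hR' (T.erase z) hT' (rem adj S z) rem_subset_erase)
        have h2 := ih (S.erase z) hcard hp' hR' (T.erase z) hT' U hU'
        have hinter : T.erase z ∩ U = T ∩ U := by
          ext y
          rw [Finset.mem_inter, Finset.mem_inter, Finset.mem_erase]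
          constructor
          · rintro ⟨⟨_, h⟩, h'⟩
            exact ⟨h, h'⟩
          · rintro ⟨h, h'⟩
            refine ⟨⟨?_, h⟩, h'⟩
            rintro rfl
            exact hzU h'
        rw [hinter] at h2
        have pT' : 0 < q adj (T.erase z) p := hR' _ hT'
        have pT : 0 < q adj T p := hR _ hT
        have pTU : 0 < q adj (T ∩ U) p := hR _ (Finset.inter_subset_left.trans hT)
        have pS' : 0 < q adj (S.erase z) p := hR' _ (Finset.Subset.refl _)
        -- multiply
        have h3 : (q adj S p * q adj (T ∩ U) p) * q adj (T.erase z) p ≤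
            (q adj T p * q adj U p) * q adj (T.erase z) p := by
          calc (q adj S p * q adj (T ∩ U) p) * q adj (T.erase z) p
              = (q adj S p * q adj (T.erase z) p) * q adj (T ∩ U) p := by ring
            _ ≤ (q adj T p * q adj (S.erase z) p) * q adj (T ∩ U) p :=
                mul_le_mul_of_nonneg_right h1 pTU.le
            _ = q adj T p * (q adj (S.erase z) p * q adj (T ∩ U) p) := by ring
            _ ≤ q adj T p * (q adj (T.erase z) p * q adj U p) :=
                mul_le_mul_of_nonneg_left h2 pT.le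
            _ = (q adj T p * q adj U p) * q adj (T.erase z) p := by ring
        exact le_of_mul_le_mul_right h3 pT'
      · have hT' : T ⊆ S.erase z := by
          intro y hy
          rw [Finset.mem_erase]
          refine ⟨?_, hT hy⟩
          rintro rfl
          exact hzT hy
        have h1 := q_le_erase hsym hzS (hp z hzS) hR'
        have h2 := ih (S.erase z) hcard hp' hR' T hT' U hU'
        have pTU : 0 < q adj (T ∩ U) p := hR _ (Finset.inter_subset_left.trans hT)
        exact (mul_le_mul_of_nonneg_right h1 pTU.le).trans h2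

/-- If `p` is in the region of `S` without `z` and `q S p > 0`, then `p` is in the region of
`S`. -/
lemma R_of_pos {adj : Z → Z → Prop} (hsym : ∀ y z, adj y z → adj z y) {S : Finset Z} {z : Z}
    (hz : z ∈ S) {p : Z → ℝ} (hp : ∀ y ∈ S, 0 ≤ p y) (hR : R adj (S.erase z) p)
    (hq : 0 < q adj S p) : R adj S p := by
  intro T hT
  by_cases hzT : z ∈ T
  · have hp' : ∀ y ∈ S.erase z, 0 ≤ p y := fun y hy => hp y (Finset.mem_of_mem_erase hy)
    have hT' : T.erase z ⊆ S.erase z := Finset.erase_subset_erase z hT
    have h1 := step_of_LS hsym (hp z hz) hT hzT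
      (LS hsym p _ (S.erase z) le_rfl hp' hR (T.erase z) hT' (rem adj S z) rem_subset_erase)
    have pT' : 0 < q adj (T.erase z) p := hR _ hT'
    have pS' : 0 < q adj (S.erase z) p := hR _ (Finset.Subset.refl _)
    by_contra hneg
    have hneg' : q adj T p ≤ 0 := not_lt.1 hneg
    have h2 : 0 < q adj S p * q adj (T.erase z) p := mul_pos hq pT'
    have h3 : q adj T p * q adj (S.erase z) p ≤ 0 :=
      mul_nonpos_of_nonpos_of_nonneg hneg' pS'.le
    linarith
  · apply hR
    intro y hy
    rw [Finset.mem_erase]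
    refine ⟨?_, hT hy⟩
    rintro rfl
    exact hzT hy

open Classical in
/-- `q` inside the region, `0` outside. -/
noncomputable def Q (adj : Z → Z → Prop) (S : Finset Z) (p : Z → ℝ) : ℝ :=
  if R adj S p then q adj S p else 0

lemma Q_empty (adj : Z → Z → Prop) (p : Z → ℝ) : Q adj ∅ p = 1 := by
  unfold Q
  rw [if_pos (R_empty adj p), q_empty]

lemma Q_nonneg (adj : Z → Z → Prop) (S : Finset Z) (p : Z → ℝ) : 0 ≤ Q adj S p := by
  unfold Q
  split_ifs with h
  · exact (h S (Finset.Subset.refl _)).le
  · exact le_rfl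

lemma Q_congr {adj : Z → Z → Prop} {S : Finset Z} {p p' : Z → ℝ}
    (h : ∀ z ∈ S, p z = p' z) : Q adj S p = Q adj S p' := by
  unfold Q
  by_cases hR : R adj S p
  · rw [if_pos hR, if_pos ((R_congr h).1 hR), q_congr h]
  · rw [if_neg hR, if_neg (fun h' => hR ((R_congr h).2 h'))]

/-- The pointwise inequality. -/
lemma Q_ge {adj : Z → Z → Prop} (hsym : ∀ y z, adj y z → adj z y) {S : Finset Z} {z : Z}
    (hz : z ∈ S) {p : Z → ℝ} (hp : ∀ y ∈ S, 0 ≤ p y) :
    Q adj (S.erase z) p - p z * Q adj (rem adj S z) p ≤ Q adj S p := by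
  by_cases hR' : R adj (S.erase z) p
  · have hrem : R adj (rem adj S z) p := hR'.mono rem_subset_erase
    by_cases hR : R adj S p
    · unfold Q
      rw [if_pos hR, if_pos hR', if_pos hrem, q_rec hsym hz p]
    · unfold Q
      rw [if_neg hR, if_pos hR', if_pos hrem, ← q_rec hsym hz p]
      by_contra hneg
      exact hR (R_of_pos hsym hz hp hR' (not_le.1 hneg))
  · have h0 : Q adj (S.erase z) p = 0 := by
      unfold Q
      rw [if_neg hR']
    rw [h0]
    have h1 := Q_nonneg adj S p
    have h2 := Q_nonneg adj (rem adj S z) p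
    nlinarith [mul_nonneg (hp z hz) h2]

/-! ### One lottery -/

/-- The expectation argument: `a S ≥ q S p / q U p * a U`, in multiplied form. -/
theorem mean_Q_ge {adj : Z → Z → Prop} (hsym : ∀ y z, adj y z → adj z y) {Ω : Type*}
    {s : Finset Ω} {μ : Ω → ℝ} (hμ : ∀ ω ∈ s, 0 ≤ μ ω) (hμ1 : ∑ ω ∈ s, μ ω = 1)
    {P : Ω → Z → ℝ} {p : Z → ℝ} {S : Finset Z}
    (hP : ∀ ω ∈ s, ∀ z ∈ S, 0 ≤ P ω z) (hp : ∀ z ∈ S, 0 ≤ p z)
    (hmean : ∀ T ⊆ S, ∀ z ∈ T, ∑ ω ∈ s, μ ω * (P ω z * Q adj (rem adj T z) (P ω)) ≤
      p z * ∑ ω ∈ s, μ ω * Q adj (rem adj T z) (P ω))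
    (hR : R adj S p) :
    q adj S p ≤ ∑ ω ∈ s, μ ω * Q adj S (P ω) := by
  classical
  set a : Finset Z → ℝ := fun T => ∑ ω ∈ s, μ ω * Q adj T (P ω) with ha
  have ha0 : a ∅ = 1 := by
    simp only [ha, Q_empty, mul_one]
    exact hμ1
  have hrec : ∀ T ⊆ S, ∀ z ∈ T, a (T.erase z) - p z * a (rem adj T z) ≤ a T := by
    intro T hT z hz
    have h1 : ∑ ω ∈ s, μ ω * (Q adj (T.erase z) (P ω) - P ω z * Q adj (rem adj T z) (P ω)) ≤
        a T := by
      apply Finset.sum_le_sum
      intro ω hω
      apply mul_le_mul_of_nonneg_left _ (hμ ω hω)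
      exact Q_ge hsym hz (fun y hy => hP ω hω y (hT hy))
    have h2 : ∑ ω ∈ s, μ ω * (Q adj (T.erase z) (P ω) - P ω z * Q adj (rem adj T z) (P ω)) =
        a (T.erase z) - ∑ ω ∈ s, μ ω * (P ω z * Q adj (rem adj T z) (P ω)) := by
      simp only [ha]
      rw [← Finset.sum_sub_distrib]
      apply Finset.sum_congr rfl
      intro ω _
      ring
    have h3 := hmean T hT z hz
    rw [h2] at h1
    have h4 : ∑ ω ∈ s, μ ω * (P ω z * Q adj (rem adj T z) (P ω)) ≤ p z * a (rem adj T z) := h3
    linarith
  have key : ∀ (n : ℕ) (T : Finset Z), T.card ≤ n → T ⊆ S →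
      ∀ U ⊆ T, q adj T p * a U ≤ a T * q adj U p := by
    intro n
    induction n with
    | zero =>
      intro T hT _ U hU
      have hT0 : T = ∅ := Finset.card_eq_zero.1 (Nat.le_zero.1 hT)
      subst hT0
      rw [Finset.subset_empty] at hU
      subst hU
      rw [mul_comm]
    | succ n ih =>
      intro T hT hTS U hU
      by_cases hTU : T ⊆ U
      · have : U = T := Finset.Subset.antisymm hU hTU
        subst this
        rw [mul_comm]
      · obtain ⟨z, hzT, hzU⟩ := Finset.not_subset.1 hTU
        have hcard : (T.erase z).card ≤ n := by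
          rw [Finset.card_erase_of_mem hzT]
          omega
        have hT'S : T.erase z ⊆ S := (Finset.erase_subset _ _).trans hTS
        have hU' : U ⊆ T.erase z := by
          intro y hy
          rw [Finset.mem_erase]
          refine ⟨?_, hU hy⟩
          rintro rfl
          exact hzU hy
        have h1 := ih (T.erase z) hcard hT'S (rem adj T z) rem_subset_erase
        have h2 := ih (T.erase z) hcard hT'S U hU'
        have h3 := hrec T hTS z hzT
        have qT' : 0 < q adj (T.erase z) p := hR _ hT'S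
        have qU : 0 < q adj U p := hR _ ((hU.trans hTS))
        have qT : 0 < q adj T p := hR _ hTS
        have h4 : a (T.erase z) * q adj T p ≤ a T * q adj (T.erase z) p := by
          rw [q_rec hsym hzT p]
          have hpz := hp z (hTS hzT)
          nlinarith [mul_le_mul_of_nonneg_left h1 hpz, mul_le_mul_of_nonneg_right h3 qT'.le]
        have h5 : (q adj T p * a U) * q adj (T.erase z) p ≤
            (a T * q adj U p) * q adj (T.erase z) p := by
          calc (q adj T p * a U) * q adj (T.erase z) p
              = q adj T p * (q adj (T.erase z) p * a U) := by ring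
            _ ≤ q adj T p * (a (T.erase z) * q adj U p) :=
                mul_le_mul_of_nonneg_left h2 qT.le
            _ = (a (T.erase z) * q adj T p) * q adj U p := by ring
            _ ≤ (a T * q adj (T.erase z) p) * q adj U p :=
                mul_le_mul_of_nonneg_right h4 qU.le
            _ = (a T * q adj U p) * q adj (T.erase z) p := by ring
        exact le_of_mul_le_mul_right h5 qT'
  have := key S.card S le_rfl (Finset.Subset.refl _) ∅ (Finset.empty_subset _)
  rw [ha0, q_empty, mul_one, mul_one] at this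
  exact this

/-- **Adaptive local lemma, general form.**  Some outcome of the lottery is again in Shearer's
region, with a value of `q` which is not smaller. -/
theorem exists_outcome_R {adj : Z → Z → Prop} (hsym : ∀ y z, adj y z → adj z y) {Ω : Type*}
    {s : Finset Ω} {μ : Ω → ℝ} (hμ : ∀ ω ∈ s, 0 ≤ μ ω) (hμ1 : ∑ ω ∈ s, μ ω = 1)
    {P : Ω → Z → ℝ} {p : Z → ℝ} {S : Finset Z}
    (hP : ∀ ω ∈ s, ∀ z ∈ S, 0 ≤ P ω z) (hp : ∀ z ∈ S, 0 ≤ p z)
    (hmean : ∀ T ⊆ S, ∀ z ∈ T, ∑ ω ∈ s, μ ω * (P ω z * Q adj (rem adj T z) (P ω)) ≤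
      p z * ∑ ω ∈ s, μ ω * Q adj (rem adj T z) (P ω))
    (hR : R adj S p) :
    ∃ ω ∈ s, 0 < μ ω ∧ R adj S (P ω) ∧ q adj S p ≤ q adj S (P ω) := by
  classical
  have h1 := mean_Q_ge hsym hμ hμ1 hP hp hmean hR
  have hq : 0 < q adj S p := hR S (Finset.Subset.refl _)
  by_contra hcon
  push Not at hcon
  have h2 : ∀ ω ∈ s, 0 < μ ω → Q adj S (P ω) < q adj S p := by
    intro ω hω hpos
    unfold Q
    split_ifs with hRω
    · exact hcon ω hω hpos hRω
    · exact hq
  have h3 : ∑ ω ∈ s, μ ω * Q adj S (P ω) < ∑ ω ∈ s, μ ω * q adj S p := by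
    obtain ⟨ω0, hω0, hne⟩ : ∃ ω ∈ s, μ ω ≠ 0 := by
      by_contra hc
      push Not at hc
      rw [Finset.sum_eq_zero hc] at hμ1
      exact zero_ne_one hμ1
    have hpos0 : 0 < μ ω0 := lt_of_le_of_ne (hμ ω0 hω0) (Ne.symm hne)
    refine Finset.sum_lt_sum (fun ω hω => ?_) ⟨ω0, hω0, ?_⟩
    · rcases (hμ ω hω).eq_or_lt with h0 | h0
      · rw [← h0, zero_mul, zero_mul]
      · exact mul_le_mul_of_nonneg_left (h2 ω hω h0).le h0.le
    · exact mul_lt_mul_of_pos_left (h2 ω0 hω0 hpos0) hpos0
  rw [← Finset.sum_mul, hμ1, one_mul] at h3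
  linarith

/-- The region is down-closed. -/
theorem R_anti {adj : Z → Z → Prop} (hsym : ∀ y z, adj y z → adj z y) {p p' : Z → ℝ}
    {S : Finset Z} (h0 : ∀ z ∈ S, 0 ≤ p' z) (hle : ∀ z ∈ S, p' z ≤ p z) (hR : R adj S p) :
    R adj S p' := by
  obtain ⟨ω, _, _, h, _⟩ := exists_outcome_R (Ω := Unit) (s := Finset.univ) hsym
    (μ := fun _ => 1) (fun _ _ => zero_le_one) (by simp) (P := fun _ => p') (p := p) (S := S)
    (fun _ _ z hz => h0 z hz) (fun z hz => (h0 z hz).trans (hle z hz))
    (fun T hT z hz => by
      simp only [Finset.univ_unique, Finset.sum_singleton, one_mul]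
      exact mul_le_mul_of_nonneg_right (hle z (hT hz)) (Q_nonneg _ _ _)) hR
  exact h

/-- **Adaptive local lemma, one lottery.**  The lottery changes only coordinates in a clique `C`
and does not increase the means. -/
theorem exists_outcome_clique {adj : Z → Z → Prop} (hsym : ∀ y z, adj y z → adj z y)
    {Ω : Type*} {s : Finset Ω} {μ : Ω → ℝ} (hμ : ∀ ω ∈ s, 0 ≤ μ ω)
    (hμ1 : ∑ ω ∈ s, μ ω = 1) {P : Ω → Z → ℝ} {p : Z → ℝ} {S : Finset Z} (C : Z → Prop)
    (hC : ∀ y ∈ S, ∀ z ∈ S, C y → C z → y ≠ z → adj y z)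
    (hP : ∀ ω ∈ s, 0 < μ ω → ∀ z ∈ S, 0 ≤ P ω z) (hp : ∀ z ∈ S, 0 ≤ p z)
    (hout : ∀ ω ∈ s, 0 < μ ω → ∀ z ∈ S, ¬ C z → P ω z = p z)
    (hin : ∀ z ∈ S, C z → ∑ ω ∈ s, μ ω * P ω z ≤ p z)
    (hR : R adj S p) :
    ∃ ω ∈ s, 0 < μ ω ∧ R adj S (P ω) ∧ q adj S p ≤ q adj S (P ω) := by
  classical
  have hsum : ∀ f : Ω → ℝ, ∑ ω ∈ s.filter (fun ω => 0 < μ ω), μ ω * f ω = ∑ ω ∈ s, μ ω * f ω := by
    intro f
    apply Finset.sum_subset (Finset.filter_subset _ _)
    intro ω hω hn
    have : μ ω = 0 := by
      by_contra hne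
      exact hn (Finset.mem_filter.2 ⟨hω, lt_of_le_of_ne (hμ ω hω) (Ne.symm hne)⟩)
    rw [this, zero_mul]
  have hsum1 : ∑ ω ∈ s.filter (fun ω => 0 < μ ω), μ ω = 1 := by
    have := hsum (fun _ => 1)
    simpa [hμ1] using this
  obtain ⟨ω, hω, h1, h2, h3⟩ := exists_outcome_R (s := s.filter (fun ω => 0 < μ ω)) hsym
    (μ := μ) (fun ω hω => (Finset.mem_filter.1 hω).2.le) hsum1 (P := P) (p := p) (S := S)
    (fun ω hω z hz => hP ω (Finset.mem_filter.1 hω).1 (Finset.mem_filter.1 hω).2 z hz) hp
    (fun T hT z hz => by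
      by_cases hCz : C z
      · have hQ : ∀ ω ∈ s.filter (fun ω => 0 < μ ω),
            Q adj (rem adj T z) (P ω) = Q adj (rem adj T z) p := by
          intro ω hω
          apply Q_congr
          intro y hy
          rw [mem_rem] at hy
          apply hout ω (Finset.mem_filter.1 hω).1 (Finset.mem_filter.1 hω).2 y (hT hy.1)
          intro hCy
          exact hy.2.2 (hC z (hT hz) y (hT hy.1) hCz hCy (Ne.symm hy.2.1))
        have e1 : ∑ ω ∈ s.filter (fun ω => 0 < μ ω), μ ω * (P ω z * Q adj (rem adj T z) (P ω)) =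
            (∑ ω ∈ s, μ ω * P ω z) * Q adj (rem adj T z) p := by
          rw [← hsum, Finset.sum_mul]
          apply Finset.sum_congr rfl
          intro ω hω
          rw [hQ ω hω]
          ring
        have e2 : ∑ ω ∈ s.filter (fun ω => 0 < μ ω), μ ω * Q adj (rem adj T z) (P ω) =
            Q adj (rem adj T z) p := by
          rw [Finset.sum_congr rfl (fun ω hω => by rw [hQ ω hω]), ← Finset.sum_mul, hsum1,
            one_mul]
        rw [e1, e2]
        exact mul_le_mul_of_nonneg_right (hin z (hT hz) hCz) (Q_nonneg _ _ _)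
      · rw [Finset.mul_sum]
        apply le_of_eq
        apply Finset.sum_congr rfl
        intro ω hω
        rw [hout ω (Finset.mem_filter.1 hω).1 (Finset.mem_filter.1 hω).2 z (hT hz) hCz]
        ring) hR
  exact ⟨ω, (Finset.mem_filter.1 hω).1, h1, h2, h3⟩

/-! ### One round of independent lotteries with a product potential -/

/-- **Adaptive local lemma, product potentials.**  Cops `i` carry vectors `w i`; the danger of the
target `z` is `c z * ∏ i, (1 - α i z * w i z)`.  Two targets are adjacent if they are in the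
support of one cop.  Each cop draws a lottery with mean `w i`.  Then the cops can choose outcomes
(of positive probability) so that the dangers stay in Shearer's region. -/
theorem round_R {adj : Z → Z → Prop} (hsym : ∀ y z, adj y z → adj z y) {ι J : Type*}
    [Fintype ι] [DecidableEq ι] {s : ι → Finset J} {μ : ι → J → ℝ}
    (hμ : ∀ i, ∀ j ∈ s i, 0 ≤ μ i j) (hμ1 : ∀ i, ∑ j ∈ s i, μ i j = 1)
    {S : Finset Z} {c : Z → ℝ} (hc : ∀ z ∈ S, 0 ≤ c z) {α : ι → Z → ℝ}
    {w : ι → Z → ℝ} {v : ι → J → Z → ℝ}
    (hw : ∀ i, ∀ z ∈ S, w i z = ∑ j ∈ s i, μ i j * v i j z)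
    (hcl : ∀ i, ∀ y ∈ S, ∀ z ∈ S, α i y * w i y ≠ 0 → α i z * w i z ≠ 0 → y ≠ z → adj y z)
    (h0 : ∀ i, ∀ j ∈ s i, ∀ z ∈ S, 0 ≤ α i z * v i j z)
    (h1 : ∀ i, ∀ j ∈ s i, ∀ z ∈ S, α i z * v i j z ≤ 1)
    (hR : R adj S (fun z => c z * ∏ i, (1 - α i z * w i z))) :
    ∃ f : ι → J, (∀ i, f i ∈ s i) ∧ (∀ i, 0 < μ i (f i)) ∧
      R adj S (fun z => c z * ∏ i, (1 - α i z * v i (f i) z)) ∧
      q adj S (fun z => c z * ∏ i, (1 - α i z * w i z)) ≤
        q adj S (fun z => c z * ∏ i, (1 - α i z * v i (f i) z)) := by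
  classical
  have hw0 : ∀ i, ∀ z ∈ S, 0 ≤ α i z * w i z := by
    intro i z hz
    rw [hw i z hz, Finset.mul_sum]
    apply Finset.sum_nonneg
    intro j hj
    have := mul_nonneg (hμ i j hj) (h0 i j hj z hz)
    nlinarith
  have hw1 : ∀ i, ∀ z ∈ S, α i z * w i z ≤ 1 := by
    intro i z hz
    rw [hw i z hz, Finset.mul_sum]
    calc ∑ j ∈ s i, α i z * (μ i j * v i j z) = ∑ j ∈ s i, μ i j * (α i z * v i j z) := by
          apply Finset.sum_congr rfl
          intro j _
          ring
      _ ≤ ∑ j ∈ s i, μ i j * 1 := by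
          apply Finset.sum_le_sum
          intro j hj
          exact mul_le_mul_of_nonneg_left (h1 i j hj z hz) (hμ i j hj)
      _ = 1 := by simp [hμ1 i]
  have hsupp : ∀ i, ∀ j ∈ s i, 0 < μ i j → ∀ z ∈ S, α i z * w i z = 0 → α i z * v i j z = 0 := by
    intro i j hj hpos z hz h
    have hs : ∑ j ∈ s i, μ i j * (α i z * v i j z) = 0 := by
      rw [← h, hw i z hz, Finset.mul_sum]
      apply Finset.sum_congr rfl
      intro j _
      ring
    have := (Finset.sum_eq_zero_iff_of_nonneg
      (fun j hj => mul_nonneg (hμ i j hj) (h0 i j hj z hz))).1 hs j hj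
    rcases mul_eq_zero.1 this with h' | h'
    · exact absurd h' hpos.ne'
    · exact h'
  -- process the cops one after the other
  have key : ∀ A : Finset ι, ∃ f : ι → J, (∀ i, f i ∈ s i) ∧ (∀ i, 0 < μ i (f i)) ∧
      R adj S (fun z => c z * ∏ i, (1 - α i z * (if i ∈ A then v i (f i) z else w i z))) ∧
      q adj S (fun z => c z * ∏ i, (1 - α i z * w i z)) ≤
        q adj S (fun z => c z * ∏ i, (1 - α i z * (if i ∈ A then v i (f i) z else w i z))) := by
    intro A
    induction A using Finset.induction_on with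
    | empty =>
      have hex : ∀ i, ∃ j ∈ s i, 0 < μ i j := by
        intro i
        by_contra hc'
        push Not at hc'
        have : ∑ j ∈ s i, μ i j = 0 :=
          Finset.sum_eq_zero (fun j hj => le_antisymm (hc' j hj) (hμ i j hj))
        rw [hμ1 i] at this
        exact one_ne_zero this
      choose f hf hf' using hex
      refine ⟨f, hf, hf', ?_, ?_⟩
      · simpa using hR
      · simp
    | insert a A haA ih =>
      obtain ⟨f, hf, hf', hRA, hqA⟩ := ih
      set rest : Z → ℝ := fun z =>
        c z * ∏ i ∈ Finset.univ.erase a, (1 - α i z * (if i ∈ A then v i (f i) z else w i z))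
        with hrest
      have hrest0 : ∀ z ∈ S, 0 ≤ rest z := by
        intro z hz
        apply mul_nonneg (hc z hz)
        apply Finset.prod_nonneg
        intro i _
        split_ifs
        · linarith [h1 i (f i) (hf i) z hz]
        · linarith [hw1 i z hz]
      have hold : (fun z => c z * ∏ i, (1 - α i z * (if i ∈ A then v i (f i) z else w i z))) =
          fun z => rest z * (1 - α a z * w a z) := by
        funext z
        rw [hrest, ← Finset.mul_prod_erase Finset.univ _ (Finset.mem_univ a), if_neg haA]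
        ring
      have hnew : ∀ j, (fun z => c z * ∏ i, (1 - α i z *
          (if i ∈ insert a A then v i (Function.update f a j i) z else w i z))) =
          fun z => rest z * (1 - α a z * v a j z) := by
        intro j
        funext z
        rw [hrest, ← Finset.mul_prod_erase Finset.univ _ (Finset.mem_univ a),
          if_pos (Finset.mem_insert_self a A), Function.update_self]
        have : ∏ i ∈ Finset.univ.erase a, (1 - α i z *
            (if i ∈ insert a A then v i (Function.update f a j i) z else w i z)) =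
            ∏ i ∈ Finset.univ.erase a, (1 - α i z * (if i ∈ A then v i (f i) z else w i z)) := by
          apply Finset.prod_congr rfl
          intro i hi
          have hia : i ≠ a := Finset.ne_of_mem_erase hi
          rw [Function.update_of_ne hia]
          simp [Finset.mem_insert, hia]
        rw [this]
        ring
      rw [hold] at hRA hqA
      obtain ⟨j, hj, hjpos, hRj, hqj⟩ := exists_outcome_clique hsym (s := s a) (μ := μ a)
        (hμ a) (hμ1 a) (P := fun j z => rest z * (1 - α a z * v a j z))
        (p := fun z => rest z * (1 - α a z * w a z)) (S := S)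
        (fun z => α a z * w a z ≠ 0) (fun y hy z hz => hcl a y hy z hz)
        (fun j hj _ z hz => mul_nonneg (hrest0 z hz) (by linarith [h1 a j hj z hz]))
        (fun z hz => mul_nonneg (hrest0 z hz) (by linarith [hw1 a z hz]))
        (fun j hj hpos z hz hz0 => by
          rw [not_not] at hz0
          show rest z * (1 - α a z * v a j z) = rest z * (1 - α a z * w a z)
          rw [hsupp a j hj hpos z hz hz0, hz0])
        (fun z hz _ => by
          apply le_of_eq
          have e : ∑ j ∈ s a, μ a j * (rest z * (1 - α a z * v a j z)) =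
              rest z * (∑ j ∈ s a, μ a j - α a z * ∑ j ∈ s a, μ a j * v a j z) := by
            rw [Finset.mul_sum, ← Finset.sum_sub_distrib, Finset.mul_sum]
            apply Finset.sum_congr rfl
            intro j _
            ring
          rw [e, hμ1 a, ← hw a z hz]) hRA
      refine ⟨Function.update f a j, ?_, ?_, ?_, ?_⟩
      · intro i
        by_cases hi : i = a
        · subst hi
          rw [Function.update_self]
          exact hj
        · rw [Function.update_of_ne hi]
          exact hf i
      · intro i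
        by_cases hi : i = a
        · subst hi
          rw [Function.update_self]
          exact hjpos
        · rw [Function.update_of_ne hi]
          exact hf' i
      · rw [hnew j]
        exact hRj
      · rw [hnew j]
        exact hqA.trans hqj
  obtain ⟨f, hf, hf', h2, h3⟩ := key Finset.univ
  refine ⟨f, hf, hf', ?_, ?_⟩
  · simpa using h2
  · simpa using h3

/-! ### The symmetric criterion -/

/-- Asymmetric criterion: `p z ≤ x z * ∏ (1 - x y)` over the neighbours. -/
theorem R_of_weights {adj : Z → Z → Prop} (hsym : ∀ y z, adj y z → adj z y) {p : Z → ℝ}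
    {x : Z → ℝ} {S : Finset Z} (hx0 : ∀ z ∈ S, 0 ≤ x z) (hx1 : ∀ z ∈ S, x z < 1)
    (hp : ∀ z ∈ S, ∀ D : Finset Z, D ⊆ S → (∀ y ∈ D, adj z y ∧ y ≠ z) →
      p z ≤ x z * ∏ y ∈ D, (1 - x y)) : R adj S p := by
  classical
  -- `q T ≥ (1 - x z) q (T - z)` for all `z ∈ T ⊆ S`
  have key : ∀ (n : ℕ) (T : Finset Z), T.card ≤ n → T ⊆ S →
      0 < q adj T p ∧ ∀ z ∈ T, (1 - x z) * q adj (T.erase z) p ≤ q adj T p := by
    intro n
    induction n with
    | zero =>
      intro T hT _
      have hT0 : T = ∅ := Finset.card_eq_zero.1 (Nat.le_zero.1 hT)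
      subst hT0
      rw [q_empty]
      exact ⟨zero_lt_one, fun z hz => absurd hz (Finset.notMem_empty z)⟩
    | succ n ih =>
      intro T hT hTS
      have hstep : ∀ z ∈ T, (1 - x z) * q adj (T.erase z) p ≤ q adj T p := by
        intro z hz
        have hcard : (T.erase z).card ≤ n := by
          rw [Finset.card_erase_of_mem hz]
          omega
        have hT'S : T.erase z ⊆ S := (Finset.erase_subset _ _).trans hTS
        -- multiply over the removed neighbours
        have hrem : ∀ D : Finset Z, D ⊆ (T.erase z) →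
            (∏ y ∈ D, (1 - x y)) * q adj (T.erase z \ D) p ≤ q adj (T.erase z) p := by
          intro D
          induction D using Finset.induction_on with
          | empty => intro _; simp
          | insert b D hbD ihD =>
            intro hD
            have hD' : D ⊆ T.erase z := (Finset.subset_insert b D).trans hD
            have h1 := ihD hD'
            have hb : b ∈ T.erase z \ D := by
              rw [Finset.mem_sdiff]
              exact ⟨hD (Finset.mem_insert_self b D), hbD⟩
            have hsub : T.erase z \ D ⊆ S := Finset.sdiff_subset.trans hT'S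
            have h2 := (ih (T.erase z \ D)
              ((Finset.card_le_card Finset.sdiff_subset).trans hcard) hsub).2 b hb
            have he : (T.erase z \ D).erase b = T.erase z \ insert b D := by
              ext y
              simp only [Finset.mem_erase, Finset.mem_sdiff, Finset.mem_insert, not_or]
              tauto
            rw [he] at h2
            have hprod : 0 ≤ ∏ y ∈ D, (1 - x y) := by
              apply Finset.prod_nonneg
              intro y hy
              linarith [hx1 y (hT'S (hD' hy))]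
            rw [Finset.prod_insert hbD]
            calc (1 - x b) * (∏ y ∈ D, (1 - x y)) * q adj (T.erase z \ insert b D) p
                = (∏ y ∈ D, (1 - x y)) * ((1 - x b) * q adj (T.erase z \ insert b D) p) := by ring
              _ ≤ (∏ y ∈ D, (1 - x y)) * q adj (T.erase z \ D) p :=
                  mul_le_mul_of_nonneg_left h2 hprod
              _ ≤ _ := h1
        set D : Finset Z := (T.erase z).filter (fun y => adj z y) with hD
        have hDsub : D ⊆ T.erase z := Finset.filter_subset _ _
        have hrem' : T.erase z \ D = rem adj T z := by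
          ext y
          simp only [hD, Finset.mem_sdiff, Finset.mem_filter, Finset.mem_erase, mem_rem, not_and]
          tauto
        have h1 := hrem D hDsub
        rw [hrem'] at h1
        have hpz := hp z (hTS hz) D (hDsub.trans hT'S) (fun y hy => by
          rw [hD, Finset.mem_filter, Finset.mem_erase] at hy
          exact ⟨hy.2, hy.1.1⟩)
        have hq'' : 0 < q adj (rem adj T z) p :=
          (ih (rem adj T z) ((Finset.card_le_card rem_subset_erase).trans hcard)
            (rem_subset_erase.trans hT'S)).1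
        rw [q_rec hsym hz p]
        have h2 : p z * q adj (rem adj T z) p ≤ x z * q adj (T.erase z) p := by
          calc p z * q adj (rem adj T z) p
              ≤ (x z * ∏ y ∈ D, (1 - x y)) * q adj (rem adj T z) p :=
                mul_le_mul_of_nonneg_right hpz hq''.le
            _ = x z * ((∏ y ∈ D, (1 - x y)) * q adj (rem adj T z) p) := by ring
            _ ≤ x z * q adj (T.erase z) p :=
                mul_le_mul_of_nonneg_left h1 (hx0 z (hTS hz))
        nlinarith
      refine ⟨?_, hstep⟩
      rcases T.eq_empty_or_nonempty with hT0 | ⟨z, hz⟩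
      · rw [hT0, q_empty]
        exact zero_lt_one
      · have hcard : (T.erase z).card ≤ n := by
          rw [Finset.card_erase_of_mem hz]
          omega
        have h1 := (ih (T.erase z) hcard ((Finset.erase_subset _ _).trans hTS)).1
        have h2 := hstep z hz
        have h3 : 0 < 1 - x z := by linarith [hx1 z (hTS hz)]
        exact lt_of_lt_of_le (mul_pos h3 h1) h2
  intro T hT
  exact (key T.card T le_rfl hT).1

/-- `(1 - 1/(D+2))^D ≥ e⁻¹`. -/
lemma one_sub_pow_ge (D : ℕ) : Real.exp (-1) ≤ (1 - 1 / ((D : ℝ) + 2)) ^ D := by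
  have hD : (0 : ℝ) < (D : ℝ) + 1 := by positivity
  have hD2 : (0 : ℝ) < (D : ℝ) + 2 := by positivity
  have h1 : 1 - 1 / ((D : ℝ) + 2) = (1 + 1 / ((D : ℝ) + 1))⁻¹ := by
    field_simp
    ring
  have h2 : 1 + 1 / ((D : ℝ) + 1) ≤ Real.exp (1 / ((D : ℝ) + 1)) := by
    have := Real.add_one_le_exp (1 / ((D : ℝ) + 1))
    linarith
  have h3 : (0 : ℝ) < 1 + 1 / ((D : ℝ) + 1) := by positivity
  rw [h1, inv_pow, Real.exp_neg]
  apply inv_anti₀ (by positivity)
  calc (1 + 1 / ((D : ℝ) + 1)) ^ D ≤ Real.exp (1 / ((D : ℝ) + 1)) ^ D :=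
        pow_le_pow_left₀ h3.le h2 D
    _ = Real.exp ((D : ℝ) * (1 / ((D : ℝ) + 1))) := by rw [← Real.exp_nat_mul]
    _ ≤ Real.exp 1 := by
        apply Real.exp_le_exp.2
        rw [mul_one_div, div_le_one hD]
        linarith

/-- Symmetric criterion: every target has at most `D` neighbours and danger at most
`1 / (e (D + 2))`. -/
theorem R_of_degree {adj : Z → Z → Prop} (hsym : ∀ y z, adj y z → adj z y) {p : Z → ℝ}
    {S : Finset Z} {D : ℕ}
    (hD : ∀ z ∈ S, ∀ E ⊆ S, (∀ y ∈ E, adj z y ∧ y ≠ z) → E.card ≤ D)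
    (hp : ∀ z ∈ S, p z ≤ Real.exp (-1) / ((D : ℝ) + 2)) : R adj S p := by
  have hD2 : (0 : ℝ) < (D : ℝ) + 2 := by positivity
  have hx1 : 1 / ((D : ℝ) + 2) < 1 := by
    rw [div_lt_one hD2]
    have : (0 : ℝ) ≤ (D : ℝ) := Nat.cast_nonneg D
    linarith
  have hx0 : 0 ≤ 1 / ((D : ℝ) + 2) := by positivity
  apply R_of_weights hsym (x := fun _ => 1 / ((D : ℝ) + 2)) (fun _ _ => hx0) (fun _ _ => hx1)
  intro z hz E hE hadj
  rw [Finset.prod_const]
  have hcard : E.card ≤ D := hD z hz E hE hadj
  have h1 : (1 - 1 / ((D : ℝ) + 2)) ^ D ≤ (1 - 1 / ((D : ℝ) + 2)) ^ E.card :=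
    pow_le_pow_of_le_one (by linarith) (by linarith) hcard
  calc p z ≤ Real.exp (-1) / ((D : ℝ) + 2) := hp z hz
    _ = 1 / ((D : ℝ) + 2) * Real.exp (-1) := by ring
    _ ≤ 1 / ((D : ℝ) + 2) * (1 - 1 / ((D : ℝ) + 2)) ^ E.card :=
        mul_le_mul_of_nonneg_left ((one_sub_pow_ge D).trans h1) hx0

/-- The product danger is at most `exp (-load)`. -/
lemma prod_le_exp {ι : Type*} [Fintype ι] {a : ι → ℝ} (h1 : ∀ i, a i ≤ 1) :
    ∏ i, (1 - a i) ≤ Real.exp (-∑ i, a i) := by
  rw [← Finset.sum_neg_distrib, Real.exp_sum]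
  apply Finset.prod_le_prod
  · intro i _
    linarith [h1 i]
  · intro i _
    have := Real.add_one_le_exp (-(a i))
    linarith

/-- Danger of a product below the chord: `exp (-λ ∑ a) ≤ ∏ (1 - μ a)` if `0 ≤ a ≤ κ` and
`μ κ = 1 - exp (-λ κ)`. -/
lemma exp_le_prod {ι : Type*} [Fintype ι] {a : ι → ℝ} {κ lam μ : ℝ} (hκ : 0 < κ)
    (hμ : μ * κ = 1 - Real.exp (-(lam * κ))) (h0 : ∀ i, 0 ≤ a i) (h1 : ∀ i, a i ≤ κ) :
    Real.exp (-(lam * ∑ i, a i)) ≤ ∏ i, (1 - μ * a i) := by
  rw [Finset.mul_sum, ← Finset.sum_neg_distrib, Real.exp_sum]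
  apply Finset.prod_le_prod
  · intro i _
    exact (Real.exp_pos _).le
  · intro i _
    -- convexity of `exp`
    have ha : 0 ≤ a i / κ := div_nonneg (h0 i) hκ.le
    have hb : 0 ≤ 1 - a i / κ := by
      rw [sub_nonneg, div_le_one hκ]
      exact h1 i
    have hab : a i / κ + (1 - a i / κ) = 1 := by ring
    have hc := convexOn_exp.2 (Set.mem_univ (-(lam * κ))) (Set.mem_univ (0 : ℝ)) ha hb hab
    simp only [smul_eq_mul, mul_zero, add_zero, Real.exp_zero, mul_one] at hc
    have e1 : a i / κ * -(lam * κ) = -(lam * a i) := by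
      field_simp
    rw [e1] at hc
    have e2 : a i / κ * Real.exp (-(lam * κ)) + (1 - a i / κ) = 1 - μ * a i := by
      have : Real.exp (-(lam * κ)) = 1 - μ * κ := by linarith
      rw [this]
      field_simp
      ring
    rw [e2] at hc
    exact hc

end H45.Shearer
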