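import Mathlib
import Pool.Agent.H55.Mey.GuarWin
import Pool.Agent.H45.Shearer

/-!
# Teams of promises: win when the dangers are in Shearer's region (helper45)

`win_of_shearer` replaces the union bound `∑ z, ∏ i, (1 - w i z) < 1` of `win_of_gu` by: the vector
`z ↦ ∏ i, (1 - w i z)` is in Shearer's region of a graph in which any two targets in the support of
one cop are adjacent.  `win_of_load` is the symmetric criterion: every target has load at least
`1 + log (D + 1)`, where `D` bounds the number of targets which share a cop with it.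
-/

set_option autoImplicit false

namespace H45.Shearer

open Finset N6ef48c04 Pool.Agent.Meyniel Pool.Agent.H4.Mey Pool.Agent.H55.Mey

variable {V : Type*} [Fintype V] [DecidableEq V] {n : ℕ}

/-- One round: after the robber's step to `x'` the cops can answer so that the dangers stay in the
region and the supports do not grow. -/
theorem exists_lot_R {N : V → Finset V} (hN : ∀ x, (N x).Nonempty) {k : ℕ} {x x' : V}
    (hx : x' ∈ N x) {y : Fin n → V} {w : Fin n → V → ℝ} (hw : ∀ i, w i ∈ Gu N (k + 1) x (y i))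
    {adj : V → V → Prop} (hsym : ∀ a b, adj a b → adj b a)
    (hcl : ∀ i a b, w i a ≠ 0 → w i b ≠ 0 → a ≠ b → adj a b)
    (hR : R adj (Rch N (k + 1) x) (fun z => ∏ i, (1 - w i z))) :
    ∃ (y' : Fin n → V) (w' : Fin n → V → ℝ), (∀ i, y' i ∈ N (y i)) ∧
      (∀ i, w' i ∈ Gu N k x' (y' i)) ∧ (∀ i z, w' i z ≠ 0 → w i z ≠ 0) ∧
      R adj (Rch N k x') (fun z => ∏ i, (1 - w' i z)) := by
  classical
  choose p q' hp hp1 hq hw' using fun i => hw i x' hx
  have hRsub : R adj (Rch N k x') (fun z => ∏ i, (1 - w i z)) :=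
    hR.mono (subset_biUnion_of_mem (Rch N k) hx)
  have hle1 : ∀ i, ∀ j ∈ N (y i), ∀ z ∈ Rch N k x', q' i j z ≤ 1 := fun i j hj z hz =>
    (Gu_good hN k x' j).le_one _ (hq i j hj) z hz
  have hnn : ∀ i, ∀ j ∈ N (y i), ∀ z, 0 ≤ q' i j z := fun i j hj z =>
    (Gu_good hN k x' j).nonneg _ (hq i j hj) z
  obtain ⟨f, hf, hfpos, hRf, _⟩ := round_R hsym (s := fun i => N (y i)) (μ := p) hp hp1
    (S := Rch N k x') (c := fun _ => 1) (fun _ _ => zero_le_one) (α := fun _ _ => 1)
    (w := w) (v := q') (fun i z _ => hw' i z)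
    (fun i a _ b _ ha hb hab => hcl i a b (by simpa using ha) (by simpa using hb) hab)
    (fun i j hj z _ => by rw [one_mul]; exact hnn i j hj z)
    (fun i j hj z hz => by rw [one_mul]; exact hle1 i j hj z hz)
    (by simpa using hRsub)
  refine ⟨f, fun i => q' i (f i), hf, fun i => hq i _ (hf i), ?_, by simpa using hRf⟩
  intro i z hz hwz
  have h1 : ∑ j ∈ N (y i), p i j * q' i j z = 0 := by rw [← hw' i z, hwz]
  have h2 := (Finset.sum_eq_zero_iff_of_nonneg
    (fun j hj => mul_nonneg (hp i j hj) (hnn i j hj z))).1 h1 (f i) (hf i)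
  rcases mul_eq_zero.1 h2 with h | h
  · exact (hfpos i).ne' h
  · exact hz h

/-- **Adaptive local lemma for promise teams.** -/
theorem win_of_shearer {G : SimpleGraph V} {k : ℕ} {x : V} {y : Fin n → V} {w : Fin n → V → ℝ}
    (hw : ∀ i, w i ∈ Gu (nb G) k x (y i)) {adj : V → V → Prop} (hsym : ∀ a b, adj a b → adj b a)
    (hcl : ∀ i a b, w i a ≠ 0 → w i b ≠ 0 → a ≠ b → adj a b)
    (hR : R adj (Rch (nb G) k x) (fun z => ∏ i, (1 - w i z))) :
    (∃ i, y i = x) ∨ ∀ x', Step G x x' → Win G n y x' := by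
  induction k generalizing x y w with
  | zero =>
    left
    by_contra hcon
    push Not at hcon
    have h1 : ∀ i, w i x = 0 := fun i => by
      obtain ⟨h2, h3⟩ := hw i
      rw [if_neg (Ne.symm (hcon i))] at h3
      exact le_antisymm h3 (h2 x)
    have h2 : 0 < q adj (Rch (nb G) 0 x) (fun z => ∏ i, (1 - w i z)) :=
      hR _ (Finset.Subset.refl _)
    have hx : x ∈ Rch (nb G) 0 x := by
      unfold Rch
      exact mem_singleton_self x
    rw [q_rec hsym hx] at h2
    have e1 : (Rch (nb G) 0 x).erase x = ∅ := by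
      unfold Rch
      simp
    have e2 : rem adj (Rch (nb G) 0 x) x = ∅ := by
      ext y
      rw [mem_rem]
      unfold Rch
      simp
      intro h _
      exact absurd h (by assumption)
    rw [e1, e2, q_empty] at h2
    have e3 : ∏ i, (1 - w i x) = 1 := prod_eq_one fun i _ => by rw [h1 i, sub_zero]
    rw [e3] at h2
    norm_num at h2
  | succ k ih =>
    right
    intro x' hx'
    have hx'' : x' ∈ nb G x := mem_nb.2 hx'
    obtain ⟨y', w', hy', hw', hs, hR'⟩ := exists_lot_R (fun v => nb_nonempty G v) hx'' hw hsym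
      hcl hR
    have h2 := ih hw' (fun i a b ha hb hab => hcl i a b (hs i a ha) (hs i b hb) hab) hR'
    exact Win.of_step (c' := y') (fun i => mem_nb.1 (hy' i)) h2

open Classical in
/-- **Local lemma for promise teams, symmetric form.**  Every target `z` which the robber can still
reach has load at least `1 + log (D + 2)`, where `D` bounds the number of other such targets which
share a cop with `z`.  Then the cops win. -/
theorem win_of_load {G : SimpleGraph V} {k : ℕ} {x : V} {y : Fin n → V} {w : Fin n → V → ℝ}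
    (hw : ∀ i, w i ∈ Gu (nb G) k x (y i)) {D : ℕ}
    (hD : ∀ z ∈ Rch (nb G) k x,
      ((Rch (nb G) k x).filter (fun a => a ≠ z ∧ ∃ i, w i a ≠ 0 ∧ w i z ≠ 0)).card ≤ D)
    (hL : ∀ z ∈ Rch (nb G) k x, 1 + Real.log ((D : ℝ) + 2) ≤ ∑ i, w i z) :
    (∃ i, y i = x) ∨ ∀ x', Step G x x' → Win G n y x' := by
  classical
  have hle1 : ∀ i, ∀ z ∈ Rch (nb G) k x, w i z ≤ 1 := fun i z hz =>
    (Gu_good (fun v => nb_nonempty G v) k x (y i)).le_one (w i) (hw i) z hz
  refine win_of_shearer hw (adj := fun a b => ∃ i, w i a ≠ 0 ∧ w i b ≠ 0)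
    (fun a b ⟨i, h1, h2⟩ => ⟨i, h2, h1⟩) (fun i a b h1 h2 _ => ⟨i, h1, h2⟩) ?_
  apply R_of_degree (D := D) (fun a b ⟨i, h1, h2⟩ => ⟨i, h2, h1⟩)
  · intro z hz E hE hadj'
    refine (Finset.card_le_card ?_).trans (hD z hz)
    intro a ha
    rw [Finset.mem_filter]
    obtain ⟨⟨i, h2, h3⟩, h4⟩ := hadj' a ha
    exact ⟨hE ha, h4, i, h3, h2⟩
  · intro z hz
    have hD2 : (0 : ℝ) < (D : ℝ) + 2 := by positivity
    have h1 := prod_le_exp (a := fun i => w i z) (fun i => hle1 i z hz)
    refine h1.trans ?_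
    rw [div_eq_mul_inv, ← Real.exp_log hD2, ← Real.exp_neg, ← Real.exp_add]
    apply Real.exp_le_exp.2
    linarith [hL z hz]

/-! ### One band of levels -/

open Classical in
/-- **Band lemma.**  `A i j x y` is the set of promise vectors which cop `i` may carry when `j` rounds
of the band are left (robber at `x` to move, cop at `y`).  `lst i z` : cop `i` is on the list of `z`;
the promises of listed pairs never exceed `κ`.  If at the start every target has listed load at least
`Λ` and shares a listed cop with at most `D` other targets, and `ε² Λ / (2 κ) ≥ 1 + log (D + 2)`, then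
the cops can play the band so that at the end every target which is still alive has listed load at
least `(1 - ε) Λ`. -/
theorem band {G : SimpleGraph V} (A : Fin n → ℕ → V → V → Set (V → ℝ))
    (hA : ∀ i j x y, ∀ w ∈ A i (j + 1) x y, ∀ x' ∈ nb G x,
      w ∈ Lot (nb G y) (fun y' => A i j x' y'))
    (hA0 : ∀ i j x y, ∀ w ∈ A i j x y, ∀ z, 0 ≤ w z)
    {k : ℕ} (lst : Fin n → V → Prop) {κ : ℝ} (hκ : 0 < κ)
    (hcap : ∀ i j x y, ∀ w ∈ A i j x y, ∀ z ∈ Rch (nb G) (j + k) x, lst i z → w z ≤ κ)
    {Λ ε : ℝ} (hε : 0 ≤ ε) (hΛ : 0 ≤ Λ) {D : ℕ}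
    (hnum : 1 + Real.log ((D : ℝ) + 2) ≤ ε ^ 2 * Λ / (2 * κ))
    {m : ℕ} {x : V} {y : Fin n → V} {w : Fin n → V → ℝ} (hw : ∀ i, w i ∈ A i m x (y i))
    (hD : ∀ z ∈ Rch (nb G) (m + k) x, ((Rch (nb G) (m + k) x).filter
      (fun a => a ≠ z ∧ ∃ i, (lst i a ∧ w i a ≠ 0) ∧ (lst i z ∧ w i z ≠ 0))).card ≤ D)
    (hL : ∀ z ∈ Rch (nb G) (m + k) x, Λ ≤ ∑ i, if lst i z then w i z else 0)
    (hend : ∀ (x' : V) (y' : Fin n → V) (w' : Fin n → V → ℝ), (∀ i, w' i ∈ A i 0 x' (y' i)) →
      (∀ i z, w' i z ≠ 0 → w i z ≠ 0) → x' ∈ Rch (nb G) m x →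
      (∀ z ∈ Rch (nb G) k x', (1 - ε) * Λ < ∑ i, if lst i z then w' i z else 0) →
      (∃ i, y' i = x') ∨ ∀ x'', Step G x' x'' → Win G n y' x'') :
    (∃ i, y i = x) ∨ ∀ x', Step G x x' → Win G n y x' := by
  classical
  -- constants
  set lam : ℝ := ε / κ with hlam
  set μ : ℝ := (1 - Real.exp (-ε)) / κ with hμdef
  have hμκ : μ * κ = 1 - Real.exp (-(lam * κ)) := by
    rw [hμdef, hlam]
    field_simp
  have hexp1 : Real.exp (-ε) ≤ 1 := by
    rw [Real.exp_le_one_iff]
    linarith
  have hμ0 : 0 ≤ μ := div_nonneg (by linarith) hκ.le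
  have hμκ1 : μ * κ ≤ 1 := by
    rw [hμκ]
    linarith [Real.exp_pos (-(lam * κ))]
  set c0 : ℝ := Real.exp (lam * ((1 - ε) * Λ)) with hc0
  have hc0pos : 0 < c0 := Real.exp_pos _
  set α : Fin n → V → ℝ := fun i z => if lst i z then μ else 0 with hα
  set adj : V → V → Prop := fun a b => ∃ i, (lst i a ∧ w i a ≠ 0) ∧ (lst i b ∧ w i b ≠ 0)
    with hadj
  have hsym : ∀ a b, adj a b → adj b a := fun a b ⟨i, h1, h2⟩ => ⟨i, h2, h1⟩
  have hαw : ∀ i z (u : ℝ), α i z * u = μ * (if lst i z then u else 0) := by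
    intro i z u
    simp only [hα]
    split_ifs <;> ring
  -- invariant
  have key : ∀ (j : ℕ) (x : V) (y : Fin n → V) (u : Fin n → V → ℝ),
      (∀ i, u i ∈ A i j x (y i)) → (∀ i z, u i z ≠ 0 → w i z ≠ 0) →
      R adj (Rch (nb G) (j + k) x) (fun z => c0 * ∏ i, (1 - α i z * u i z)) →
      (∀ (x' : V) (y' : Fin n → V) (w' : Fin n → V → ℝ), (∀ i, w' i ∈ A i 0 x' (y' i)) →
        (∀ i z, w' i z ≠ 0 → w i z ≠ 0) → x' ∈ Rch (nb G) j x →
        (∀ z ∈ Rch (nb G) k x', (1 - ε) * Λ < ∑ i, if lst i z then w' i z else 0) →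
        (∃ i, y' i = x') ∨ ∀ x'', Step G x' x'' → Win G n y' x'') →
      (∃ i, y i = x) ∨ ∀ x', Step G x x' → Win G n y x' := by
    intro j
    induction j with
    | zero =>
      intro x y u hu hsupp hR hend'
      refine hend' x y u hu hsupp (by unfold Rch; exact mem_singleton_self x) ?_
      intro z hz
      rw [Nat.zero_add] at hR
      have h1 : 0 < q adj {z} (fun z => c0 * ∏ i, (1 - α i z * u i z)) :=
        hR {z} (Finset.singleton_subset_iff.2 hz)
      rw [q_rec hsym (Finset.mem_singleton_self z)] at h1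
      have e1 : ({z} : Finset V).erase z = ∅ := by simp
      have e2 : rem adj ({z} : Finset V) z = ∅ := by
        rw [Finset.eq_empty_iff_forall_notMem]
        intro a ha
        rw [mem_rem, Finset.mem_singleton] at ha
        exact ha.2.1 ha.1
      rw [e1, e2, q_empty, mul_one] at h1
      have h2 : c0 * ∏ i, (1 - α i z * u i z) < 1 := by linarith
      have h3 : Real.exp (-(lam * ∑ i, if lst i z then u i z else 0)) ≤
          ∏ i, (1 - μ * (if lst i z then u i z else 0)) := by
        apply exp_le_prod hκ hμκ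
        · intro i
          split_ifs
          · exact hA0 i 0 x (y i) (u i) (hu i) z
          · exact le_rfl
        · intro i
          split_ifs with hl
          · exact hcap i 0 x (y i) (u i) (hu i) z (by rw [Nat.zero_add]; exact hz) hl
          · exact hκ.le
      have e3 : ∏ i, (1 - α i z * u i z) = ∏ i, (1 - μ * (if lst i z then u i z else 0)) :=
        Finset.prod_congr rfl fun i _ => by rw [hαw]
      rw [e3] at h2
      have h4 : c0 * Real.exp (-(lam * ∑ i, if lst i z then u i z else 0)) < 1 :=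
        lt_of_le_of_lt (mul_le_mul_of_nonneg_left h3 hc0pos.le) h2
      rw [hc0, ← Real.exp_add, Real.exp_lt_one_iff] at h4
      have h5 : lam * ((1 - ε) * Λ) < lam * ∑ i, if lst i z then u i z else 0 := by linarith
      have hlam0 : 0 ≤ lam := div_nonneg hε hκ.le
      exact lt_of_mul_lt_mul_left h5 hlam0
    | succ j ih =>
      intro x y u hu hsupp hR hend'
      right
      intro x' hx'
      have hx'' : x' ∈ nb G x := mem_nb.2 hx'
      choose p q' hp hp1 hq hw' using fun i => hA i j x (y i) (u i) (hu i) x' hx''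
      have hRch : Rch (nb G) (j + k) x' ⊆ Rch (nb G) (j + 1 + k) x := by
        have : j + 1 + k = (j + k) + 1 := by ring
        rw [this]
        exact subset_biUnion_of_mem (Rch (nb G) (j + k)) hx''
      have hRsub : R adj (Rch (nb G) (j + k) x') (fun z => c0 * ∏ i, (1 - α i z * u i z)) :=
        hR.mono hRch
      have hq0 : ∀ i, ∀ l ∈ nb G (y i), ∀ z, 0 ≤ q' i l z := fun i l hl z =>
        hA0 i j x' l _ (hq i l hl) z
      have hqκ : ∀ i, ∀ l ∈ nb G (y i), ∀ z ∈ Rch (nb G) (j + k) x', lst i z →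
          q' i l z ≤ κ := fun i l hl z hz hlst =>
        hcap i j x' l _ (hq i l hl) z hz hlst
      obtain ⟨f, hf, hfpos, hRf, _⟩ := round_R hsym (s := fun i => nb G (y i)) (μ := p) hp hp1
        (S := Rch (nb G) (j + k) x') (c := fun _ => c0) (fun _ _ => hc0pos.le) (α := α)
        (w := u) (v := q') (fun i z _ => hw' i z)
        (fun i a _ b _ ha hb _ => by
          rw [hαw] at ha hb
          have ha' := right_ne_zero_of_mul ha
          have hb' := right_ne_zero_of_mul hb
          refine ⟨i, ?_, ?_⟩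
          · by_cases hl : lst i a
            · rw [if_pos hl] at ha'
              exact ⟨hl, hsupp i a ha'⟩
            · rw [if_neg hl] at ha'
              exact absurd rfl ha'
          · by_cases hl : lst i b
            · rw [if_pos hl] at hb'
              exact ⟨hl, hsupp i b hb'⟩
            · rw [if_neg hl] at hb'
              exact absurd rfl hb')
        (fun i l hl z _ => by
          rw [hαw]
          apply mul_nonneg hμ0
          split_ifs
          · exact hq0 i l hl z
          · exact le_rfl)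
        (fun i l hl z hz => by
          rw [hαw]
          split_ifs with hlst
          · exact (mul_le_mul_of_nonneg_left (hqκ i l hl z hz hlst) hμ0).trans hμκ1
          · rw [mul_zero]
            exact zero_le_one)
        hRsub
      have hs : ∀ i z, q' i (f i) z ≠ 0 → u i z ≠ 0 := by
        intro i z hz huz
        have h1 : ∑ l ∈ nb G (y i), p i l * q' i l z = 0 := by rw [← hw' i z, huz]
        have h2 := (Finset.sum_eq_zero_iff_of_nonneg
          (fun l hl => mul_nonneg (hp i l hl) (hq0 i l hl z))).1 h1 (f i) (hf i)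
        rcases mul_eq_zero.1 h2 with h | h
        · exact (hfpos i).ne' h
        · exact hz h
      have h2 := ih x' f (fun i => q' i (f i)) (fun i => hq i _ (hf i))
        (fun i z hz => hsupp i z (hs i z hz)) hRf
        (fun x2 y2 w2 h1 h2 h3 h4 => hend' x2 y2 w2 h1 h2
          (by
            have : Rch (nb G) j x' ⊆ Rch (nb G) (j + 1) x :=
              subset_biUnion_of_mem (Rch (nb G) j) hx''
            exact this h3) h4)
      exact Win.of_step (c' := f) (fun i => mem_nb.1 (hf i)) h2
  refine key m x y w hw (fun _ _ h => h) ?_ hend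
  -- the start
  apply R_of_degree (D := D) hsym
  · intro z hz E hE hadj'
    refine (Finset.card_le_card ?_).trans (hD z hz)
    intro a ha
    rw [Finset.mem_filter]
    obtain ⟨⟨i, h2, h3⟩, h4⟩ := hadj' a ha
    exact ⟨hE ha, h4, i, h3, h2⟩
  · intro z hz
    have hD2 : (0 : ℝ) < (D : ℝ) + 2 := by positivity
    have e3 : ∏ i, (1 - α i z * w i z) = ∏ i, (1 - μ * (if lst i z then w i z else 0)) :=
      Finset.prod_congr rfl fun i _ => by rw [hαw]
    have hle : ∀ i, μ * (if lst i z then w i z else 0) ≤ 1 := by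
      intro i
      split_ifs with hlst
      · exact (mul_le_mul_of_nonneg_left (hcap i m x (y i) (w i) (hw i) z hz hlst) hμ0).trans
          hμκ1
      · rw [mul_zero]
        exact zero_le_one
    have h1 := prod_le_exp (a := fun i => μ * (if lst i z then w i z else 0)) hle
    rw [e3]
    have h2 : c0 * ∏ i, (1 - μ * (if lst i z then w i z else 0)) ≤
        Real.exp (lam * ((1 - ε) * Λ) - μ * Λ) := by
      calc c0 * ∏ i, (1 - μ * (if lst i z then w i z else 0))
          ≤ c0 * Real.exp (-∑ i, μ * (if lst i z then w i z else 0)) :=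
            mul_le_mul_of_nonneg_left h1 hc0pos.le
        _ = Real.exp (lam * ((1 - ε) * Λ) - μ * ∑ i, (if lst i z then w i z else 0)) := by
            rw [hc0, ← Real.exp_add, ← Finset.mul_sum]
            ring_nf
        _ ≤ _ := by
            apply Real.exp_le_exp.2
            have := mul_le_mul_of_nonneg_left (hL z hz) hμ0
            linarith
    refine h2.trans ?_
    have h3 : lam * ((1 - ε) * Λ) - μ * Λ ≤ -(ε ^ 2 * Λ / (2 * κ)) := by
      have hq : Real.exp (-ε) ≤ 1 - ε + ε ^ 2 / 2 := by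
        have h := Real.quadratic_le_exp_of_nonneg hε
        have hpos : 0 < 1 + ε + ε ^ 2 / 2 := by positivity
        rw [Real.exp_neg]
        calc (Real.exp ε)⁻¹ ≤ (1 + ε + ε ^ 2 / 2)⁻¹ := inv_anti₀ hpos h
          _ ≤ 1 - ε + ε ^ 2 / 2 := by
              rw [inv_le_iff_one_le_mul₀ hpos]
              nlinarith [sq_nonneg (ε ^ 2)]
      have : lam * ((1 - ε) * Λ) - μ * Λ =
          (Λ / κ) * (ε * (1 - ε) - (1 - Real.exp (-ε))) := by
        rw [hlam, hμdef]
        field_simp
      rw [this]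
      have e4 : -(ε ^ 2 * Λ / (2 * κ)) = (Λ / κ) * (-(ε ^ 2 / 2)) := by
        field_simp
      rw [e4]
      apply mul_le_mul_of_nonneg_left _ (div_nonneg hΛ hκ.le)
      nlinarith
    rw [div_eq_mul_inv, ← Real.exp_log hD2, ← Real.exp_neg, ← Real.exp_add]
    apply Real.exp_le_exp.2
    linarith

end H45.Shearer
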